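import Pool.Agent.W_be22fd_h27.GridDef

/-!
MP_be22fd_co: heights of the movers of the grid at the key states (`M = n + 1`, stage `0`).
-/

namespace Pool.Agent.W_be22fd_h13

open Pool.Agent.W_be22fd_h27

variable (B : Block) (X : ℕ)

/-- the mover of kind `κ` of the slot `k` -/
def mvW (κ : MK B.ns) (k : Fin (X * X)) : Wire (GW B X) (X * X + 1) := .inn (.mv κ k)

variable {B X}

theorem hG_wait {n : ℕ} {t : B.τ} (κ : MK B.ns) {k : Fin (X * X)} (h : n ≤ k) {i : ℕ}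
    (hi : i ≤ 3) :
    hG B X (n + 1) i t (mvW B X κ k) = H4 κ.zb (κ.ab k) κ.bb (B.h B.ini κ.wire) := by
  show hMv B X (n + 1) i t κ k = _
  unfold hMv
  rw [if_pos]
  omega

theorem hG_done {n : ℕ} {t : B.τ} (κ : MK B.ns) {k : Fin (X * X)} (h : (k : ℕ) < n) {i : ℕ} :
    hG B X (n + 1) i t (mvW B X κ k) = H4 κ.za (κ.aa k) κ.bb (B.h B.fin κ.wire) := by
  show hMv B X (n + 1) i t κ k = _
  unfold hMv
  rw [if_neg (by omega), if_neg (by omega)]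

/-- at the key state `k + 1` the mover `c k` is above every other mover `c j`, `l j` -/
theorem top_c {t : B.τ} {k j : Fin (X * X)} (hjk : j ≠ k) {i : ℕ} (hi : i ≤ 3) :
    hG B X (k + 1 + 1) i t (mvW B X .c j) < hG B X (k + 1 + 1) i t (mvW B X .c k) := by
  have hne : (j : ℕ) ≠ k := fun h => hjk (Fin.ext h)
  rw [hG_done .c (Nat.lt_succ_self (k : ℕ))]
  rcases lt_or_gt_of_ne hne with h | h
  · rw [hG_done .c (by omega : (j : ℕ) < k + 1), H4_lt]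
    right
    refine ⟨rfl, Or.inl ?_⟩
    show ((j : ℕ) : ℤ) < ((k : ℕ) : ℤ)
    exact_mod_cast h
  · rw [hG_wait .c (by omega : (k : ℕ) + 1 ≤ j) hi, H4_lt]
    left
    show (-18 : ℤ) < -8
    norm_num

theorem top_l {t : B.τ} {k j : Fin (X * X)} {i : ℕ} (hi : i ≤ 3) :
    hG B X (k + 1 + 1) i t (mvW B X .l j) < hG B X (k + 1 + 1) i t (mvW B X .c k) := by
  rw [hG_done .c (Nat.lt_succ_self (k : ℕ))]
  rcases Nat.lt_or_ge (j : ℕ) (k + 1) with h | h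
  · rw [hG_done .l h, H4_lt]
    left
    show (-24 : ℤ) < -8
    norm_num
  · rw [hG_wait .l h hi, H4_lt]
    left
    show (-14 : ℤ) < -8
    norm_num

theorem bot_l {t : B.τ} {k j : Fin (X * X)} (hjk : j ≠ k) {i : ℕ} (hi : i ≤ 3) :
    hG B X (k + 1 + 1) i t (mvW B X .l k) < hG B X (k + 1 + 1) i t (mvW B X .l j) := by
  have hne : (j : ℕ) ≠ k := fun h => hjk (Fin.ext h)
  rw [hG_done .l (Nat.lt_succ_self (k : ℕ))]
  rcases lt_or_gt_of_ne hne with h | h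
  · rw [hG_done .l (by omega : (j : ℕ) < k + 1), H4_lt]
    right
    refine ⟨rfl, Or.inl ?_⟩
    show -((k : ℕ) : ℤ) < -((j : ℕ) : ℤ)
    have : ((j : ℕ) : ℤ) < ((k : ℕ) : ℤ) := by exact_mod_cast h
    omega
  · rw [hG_wait .l (by omega : (k : ℕ) + 1 ≤ j) hi, H4_lt]
    left
    show (-24 : ℤ) < -14
    norm_num

theorem bot_c {t : B.τ} {k j : Fin (X * X)} {i : ℕ} (hi : i ≤ 3) :
    hG B X (k + 1 + 1) i t (mvW B X .l k) < hG B X (k + 1 + 1) i t (mvW B X .c j) := by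
  rw [hG_done .l (Nat.lt_succ_self (k : ℕ))]
  rcases Nat.lt_or_ge (j : ℕ) (k + 1) with h | h
  · rw [hG_done .c h, H4_lt]
    left
    show (-24 : ℤ) < -8
    norm_num
  · rw [hG_wait .c h hi, H4_lt]
    left
    show (-24 : ℤ) < -18
    norm_num

theorem wait_cl {t : B.τ} {n : ℕ} {j j' : Fin (X * X)} (h : n ≤ j) (h' : n ≤ j') {i : ℕ}
    (hi : i ≤ 3) : hG B X (n + 1) i t (mvW B X .c j) < hG B X (n + 1) i t (mvW B X .l j') := by
  rw [hG_wait .c h hi, hG_wait .l h' hi, H4_lt]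
  left
  show (-18 : ℤ) < -14
  norm_num

theorem wait_cc {t : B.τ} {n : ℕ} {j j' : Fin (X * X)} (h : n ≤ j) (hjj : j < j') {i : ℕ}
    (hi : i ≤ 3) : hG B X (n + 1) i t (mvW B X .c j') < hG B X (n + 1) i t (mvW B X .c j) := by
  have hjj' : (j : ℕ) < j' := hjj
  rw [hG_wait .c h hi, hG_wait .c (by omega : n ≤ j') hi, H4_lt]
  right
  refine ⟨rfl, Or.inl ?_⟩
  show -((j' : ℕ) : ℤ) < -((j : ℕ) : ℤ)
  omega

theorem wait_ll {t : B.τ} {n : ℕ} {j j' : Fin (X * X)} (h : n ≤ j) (hjj : j < j') {i : ℕ}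
    (hi : i ≤ 3) : hG B X (n + 1) i t (mvW B X .l j) < hG B X (n + 1) i t (mvW B X .l j') := by
  have hjj' : (j : ℕ) < j' := hjj
  rw [hG_wait .l h hi, hG_wait .l (by omega : n ≤ j') hi, H4_lt]
  right
  refine ⟨rfl, Or.inl ?_⟩
  show ((j : ℕ) : ℤ) < ((j' : ℕ) : ℤ)
  omega

theorem rk_cc {j j' : Fin (X * X)} (h : j < j') :
    rkG B X (mvW B X .c j) < rkG B X (mvW B X .c j') := by
  have h' : (j : ℕ) < j' := h
  show B.A + 1 + ((j : ℕ) : ℤ) < B.A + 1 + ((j' : ℕ) : ℤ)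
  omega

theorem rk_ll {j j' : Fin (X * X)} (h : j < j') :
    rkG B X (mvW B X .l j') < rkG B X (mvW B X .l j) := by
  have h' : (j : ℕ) < j' := h
  show -(B.A + 1 + ((j' : ℕ) : ℤ)) < -(B.A + 1 + ((j : ℕ) : ℤ))
  omega

theorem rk_lc {j j' : Fin (X * X)} : rkG B X (mvW B X .l j) < rkG B X (mvW B X .c j') := by
  have hA := B.A_nonneg
  show -(B.A + 1 + ((j : ℕ) : ℤ)) < B.A + 1 + ((j' : ℕ) : ℤ)
  omega

end Pool.Agent.W_be22fd_h13
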