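import Pool.Agent.W_be22fd_h13.LogRangeB
import Pool.Agent.W_be22fd_h13.GridMovers
import Pool.Agent.W_be22fd_h16.Recur
import Pool.Agent.W_be22fd_h27.Grid

/-!
MP_be22fd_co: the logarithmic range of the key times of a grid block.
-/

namespace Pool.Agent.W_be22fd_h13

open Polynomial Pool.Agent.W_be22fd_h27 Pool.Agent.W_be22fd_h16

variable (B : Block) (X : ℕ)

/-- the mover of kind `κ` of the slot `k`, as a wire of the grid block -/
noncomputable def mvN (κ : MK B.ns) (k : ℕ) : Wire (grid B X).W (grid B X).ns :=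
  if h : k < X * X then mvW B X κ ⟨k, h⟩ else .C

theorem mvN_eq (κ : MK B.ns) {k : ℕ} (h : k < X * X) : mvN B X κ k = mvW B X κ ⟨k, h⟩ :=
  dif_pos h

theorem h_keyN {n : ℕ} (hn : n < X * X + 1) (p : Wire (grid B X).W (grid B X).ns) :
    (grid B X).h (keyN (grid B X) n 0) p = hG B X (n + 1) 0 B.ini p := by
  unfold keyN
  rw [dif_pos (show n < (grid B X).ns from hn)]
  rfl

theorem mvN_core (κ : MK B.ns) {k : ℕ} (h : k < X * X) : (mvN B X κ k).IsCore := by
  rw [mvN_eq B X κ h]
  trivial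

/-- the movers of the grid block -/
noncomputable def movers : Movers (grid B X) (X * X) where
  ns_eq := rfl
  c := mvN B X .c
  l := mvN B X .l
  core_c k h := mvN_core B X _ h
  core_l k h := mvN_core B X _ h
  r_cc j j' h h' := by
    rw [mvN_eq B X _ (h.trans h'), mvN_eq B X _ h']
    exact rk_cc (B := B) (X := X) (by exact h)
  r_ll j j' h h' := by
    rw [mvN_eq B X _ (h.trans h'), mvN_eq B X _ h']
    exact rk_ll (B := B) (X := X) (by exact h)
  r_lc j j' h h' := by
    rw [mvN_eq B X _ h, mvN_eq B X _ h']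
    exact rk_lc (B := B) (X := X)
  top_c k j hk hj hjk := by
    rw [h_keyN B X (by omega), h_keyN B X (by omega), mvN_eq B X _ hk, mvN_eq B X _ hj]
    exact top_c (k := ⟨k, hk⟩) (j := ⟨j, hj⟩) (fun h => hjk (by simpa using h)) (by omega)
  top_l k j hk hj := by
    rw [h_keyN B X (by omega), h_keyN B X (by omega), mvN_eq B X _ hk, mvN_eq B X _ hj]
    exact top_l (k := ⟨k, hk⟩) (j := ⟨j, hj⟩) (by omega)
  bot_l k j hk hj hjk := by
    rw [h_keyN B X (by omega), h_keyN B X (by omega), mvN_eq B X _ hk, mvN_eq B X _ hj]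
    exact bot_l (k := ⟨k, hk⟩) (j := ⟨j, hj⟩) (fun h => hjk (by simpa using h)) (by omega)
  bot_c k j hk hj := by
    rw [h_keyN B X (by omega), h_keyN B X (by omega), mvN_eq B X _ hk, mvN_eq B X _ hj]
    exact bot_c (k := ⟨k, hk⟩) (j := ⟨j, hj⟩) (by omega)
  wait_cl k j j' h h' hj hj' := by
    rw [h_keyN B X (by omega), h_keyN B X (by omega), mvN_eq B X _ hj, mvN_eq B X _ hj']
    exact wait_cl (n := k) (j := ⟨j, hj⟩) (j' := ⟨j', hj'⟩) h h' (by omega)
  wait_cc k j j' h h' hj' := by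
    rw [h_keyN B X (by omega), h_keyN B X (by omega), mvN_eq B X _ hj',
      mvN_eq B X _ (h'.trans hj')]
    exact wait_cc (n := k) (j := ⟨j, h'.trans hj'⟩) (j' := ⟨j', hj'⟩) h h' (by omega)
  wait_ll k j j' h h' hj' := by
    rw [h_keyN B X (by omega), h_keyN B X (by omega), mvN_eq B X _ hj',
      mvN_eq B X _ (h'.trans hj')]
    exact wait_ll (n := k) (j := ⟨j, h'.trans hj'⟩) (j' := ⟨j', hj'⟩) h h' (by omega)

theorem tauN_eq_tn {B : Block} {d : ℕ} (R : BReal B d) (n : ℕ) : tauN R n = R.tn n := rfl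

/-- **(M)** for the grid block -/
theorem rangeOK_grid {d : ℕ} (hd : 1 ≤ d) : RangeOK (grid B X) d (logM d) := by
  intro R i hi hi'
  have hns : (grid B X).ns = X * X + 1 := rfl
  have h := log_range R (movers B X) hd hi (by omega : i + 1 < X * X)
  simp only [tauN_eq_tn] at h
  have e : (grid B X).ns - 2 = X * X - 1 := by omega
  rw [e]
  exact h

theorem logM_le (d : ℕ) : logM d ≤ 70 * ((d : ℝ) + 1) ^ 2 := by
  unfold logM
  have h2 := Real.log_two_lt_d9
  have hd : (0 : ℝ) ≤ d := Nat.cast_nonneg d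
  have h1 : Real.log (10 * (d : ℝ)) ≤ 10 * d := by
    rcases eq_or_lt_of_le hd with h | h
    · rw [← h]
      simp
    · have := Real.log_le_sub_one_of_pos (by positivity : (0 : ℝ) < 10 * d)
      linarith
  have h3 : (6 * (d : ℝ) + 1) * Real.log (10 * d) ≤ (6 * d + 1) * (10 * d) := by gcongr
  nlinarith

end Pool.Agent.W_be22fd_h13
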