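import Pool.Agent.W_be22_h73.Ghys

/-!
MP_be22fd_co: logarithmic range of the key times of a grid block, from the 3142 lemma.
-/

namespace Pool.Agent.W_be22fd_h13

open Polynomial

/-- the constant `M` -/
noncomputable def logM (D : ℕ) : ℝ := Real.log 2 + (6 * D + 1) * Real.log (10 * D)

theorem logM_nonneg (D : ℕ) : 0 ≤ logM D := by
  unfold logM
  have h1 : 0 ≤ Real.log 2 := Real.log_nonneg (by norm_num)
  have h2 : 0 ≤ Real.log (10 * (D : ℝ)) := by
    rcases Nat.eq_zero_or_pos D with rfl | h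
    · simp
    · apply Real.log_nonneg
      have : (1 : ℝ) ≤ D := by exact_mod_cast h
      linarith
  positivity

theorem exp_logM {D : ℕ} (hD : 1 ≤ D) :
    Real.exp (logM D) = 2 * ((10 * D : ℕ) : ℝ) ^ (6 * D + 1) := by
  have hD' : (1 : ℝ) ≤ D := by exact_mod_cast hD
  have h10 : (0 : ℝ) < 10 * D := by linarith
  unfold logM
  rw [Real.exp_add, Real.exp_log (by norm_num : (0 : ℝ) < 2)]
  congr 1
  have e : (6 * (D : ℝ) + 1) * Real.log (10 * D) = ((6 * D + 1 : ℕ) : ℝ) * Real.log (10 * D) := by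
    push_cast
    ring
  rw [e, Real.exp_nat_mul, Real.exp_log h10]
  push_cast
  rfl

theorem range_core {D : ℕ} (hD : 1 ≤ D) {lK li ci cK c1 l1 : ℝ[X]}
    (dlK : lK.natDegree ≤ D) (dli : li.natDegree ≤ D) (dci : ci.natDegree ≤ D)
    (dcK : cK.natDegree ≤ D) (dc1 : c1.natDegree ≤ D) (dl1 : l1.natDegree ≤ D)
    {t1 ta tb tK : ℝ} (hab : ta < tb)
    (hA : ∀ x, x ≤ ta → cK.eval x < ci.eval x ∧ ci.eval x < li.eval x ∧ li.eval x < lK.eval x)
    (hB : ∀ x, tb ≤ x → x ≤ tK →
      li.eval x < cK.eval x ∧ cK.eval x < lK.eval x ∧ lK.eval x < ci.eval x)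
    (hC : ∀ x, t1 ≤ x → x ≤ ta →
      l1.eval x < ci.eval x ∧ ci.eval x < li.eval x ∧ li.eval x < c1.eval x)
    (hE : ∀ x, tb ≤ x → li.eval x < l1.eval x ∧ l1.eval x < c1.eval x ∧ c1.eval x < ci.eval x) :
    tK - t1 ≤ Real.exp (logM D) * (tb - ta) := by
  have h1 : tK - ta < (tb - ta) * ((10 * D : ℕ) : ℝ) ^ (6 * D + 1) := by
    refine W_be22_h73.range_lt hD dlK dli dci dcK (c := ta) (by linarith) ?_ ?_
    · intro r hr1 hr2
      exact hA _ (by linarith)
    · intro r hr1 hr2
      exact hB _ (by linarith) (by linarith)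
  have h2 : tb - t1 < (tb - ta) * ((10 * D : ℕ) : ℝ) ^ (6 * D + 1) := by
    refine W_be22_h73.range_lt hD dc1 dli dci dl1 (c := tb) (by linarith) ?_ ?_
    · intro r hr1 hr2
      exact hC _ (by linarith) (by linarith)
    · intro r hr1 hr2
      exact hE _ (by linarith)
  rw [exp_logM hD]
  nlinarith


/-- `P` is above `Q` up to their only crossing and below `Q` afterwards -/
def Once (P Q : ℝ[X]) : Prop :=
  (∀ x y, x ≤ y → Q.eval y < P.eval y → Q.eval x < P.eval x) ∧
    (∀ x y, x ≤ y → P.eval x < Q.eval x → P.eval y < Q.eval y)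

/-- The movers `c j`, `l j` of a grid block with `K` slots (slot `k` lies between the key times
`tau k` and `tau (k + 1)`): all gaps of `tau 1 < ... < tau (K - 1)` are comparable with the whole
up to the factor `exp (logM D)`. -/
theorem log_range_sys {D K : ℕ} (hD : 1 ≤ D) (c l : ℕ → ℝ[X]) (tau : ℕ → ℝ)
    (dc : ∀ j, j < K → (c j).natDegree ≤ D) (dl : ∀ j, j < K → (l j).natDegree ≤ D)
    (mono : ∀ i, i < K → tau i < tau (i + 1))
    (ll : ∀ j j', j < j' → j' < K → Once (l j') (l j))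
    (lc : ∀ j j', j < K → j' < K → Once (l j) (c j'))
    (cc : ∀ j j', j < j' → j' < K → Once (c j) (c j'))
    (top_c : ∀ k j, k < K → j < K → j ≠ k → (c j).eval (tau (k + 1)) < (c k).eval (tau (k + 1)))
    (top_l : ∀ k j, k < K → j < K → (l j).eval (tau (k + 1)) < (c k).eval (tau (k + 1)))
    (bot_l : ∀ k j, k < K → j < K → j ≠ k → (l k).eval (tau (k + 1)) < (l j).eval (tau (k + 1)))
    (bot_c : ∀ k j, k < K → j < K → (l k).eval (tau (k + 1)) < (c j).eval (tau (k + 1)))
    (wait_cl : ∀ k j j', k ≤ j → k ≤ j' → j < K → j' < K →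
      (c j).eval (tau k) < (l j').eval (tau k))
    (wait_cc : ∀ k j j', k ≤ j → j < j' → j' < K → (c j').eval (tau k) < (c j).eval (tau k))
    (wait_ll : ∀ k j j', k ≤ j → j < j' → j' < K → (l j).eval (tau k) < (l j').eval (tau k))
    {i : ℕ} (hi : 1 ≤ i) (hiK : i + 1 < K) :
    tau (K - 1) - tau 1 ≤ Real.exp (logM D) * (tau (i + 1) - tau i) := by
  have hmono : ∀ a b, a ≤ b → b ≤ K → tau a ≤ tau b := by
    intro a b hab hb
    induction b, hab using Nat.le_induction with
    | base => exact le_rfl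
    | succ b hab ih => exact (ih (by omega)).trans (mono b (by omega)).le
  refine range_core (lK := l (K - 1)) (li := l i) (ci := c i) (cK := c (K - 1)) (c1 := c 0)
    (l1 := l 0) hD (dl _ (by omega)) (dl _ (by omega)) (dc _ (by omega)) (dc _ (by omega))
    (dc _ (by omega)) (dl _ (by omega)) (mono i (by omega)) ?_ ?_ ?_ ?_
  · intro x hx
    refine ⟨(cc i (K - 1) (by omega) (by omega)).1 x _ hx (wait_cc i i (K - 1) le_rfl (by omega)
      (by omega)), (lc i i (by omega) (by omega)).1 x _ hx (wait_cl i i i le_rfl le_rfl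
      (by omega) (by omega)), (ll i (K - 1) (by omega) (by omega)).1 x _ hx
      (wait_ll i i (K - 1) le_rfl (by omega) (by omega))⟩
  · intro x hx1 hx2
    refine ⟨(lc i (K - 1) (by omega) (by omega)).2 _ x hx1 (bot_c i (K - 1) (by omega)
      (by omega)), (lc (K - 1) (K - 1) (by omega) (by omega)).1 x _ hx2
      (wait_cl (K - 1) (K - 1) (K - 1) le_rfl le_rfl (by omega) (by omega)),
      (lc (K - 1) i (by omega) (by omega)).2 _ x hx1 (top_l i (K - 1) (by omega) (by omega))⟩
  · intro x hx1 hx2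
    refine ⟨(lc 0 i (by omega) (by omega)).2 _ x hx1 (bot_c 0 i (by omega) (by omega)),
      (lc i i (by omega) (by omega)).1 x _ hx2 (wait_cl i i i le_rfl le_rfl (by omega)
        (by omega)),
      (lc i 0 (by omega) (by omega)).2 _ x hx1 (top_l 0 i (by omega) (by omega))⟩
  · intro x hx
    refine ⟨(ll 0 i (by omega) (by omega)).2 _ x hx (bot_l i 0 (by omega) (by omega)
      (by omega)), (lc 0 0 (by omega) (by omega)).2 (tau (0 + 1)) x
        ((hmono _ _ (by omega) (by omega)).trans hx) (top_l 0 0 (by omega) (by omega)),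
      (cc 0 i (by omega) (by omega)).2 _ x hx (top_c i 0 (by omega) (by omega) (by omega))⟩

end Pool.Agent.W_be22fd_h13
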