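import Pool.Agent.W_be22fd_h13.LogRange
import Pool.Agent.W_be22fd_h16.BReal

/-!
MP_be22fd_co: the logarithmic range of the key times of a block with movers (item (M)).
-/

namespace Pool.Agent.W_be22fd_h13

open Polynomial Pool.Agent.W_be22fd_h27 Pool.Agent.W_be22fd_h16

/-- key state number `n` -/
def keyN (B : Block) (n : ℕ) (i : Fin 4) : B.τ :=
  if h : n < B.ns then B.key ⟨n, h⟩ i else B.fin

/-- The movers `c k`, `l k` (`k < K`) of a grid block: `c k` goes to the top and `l k` to the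
bottom of the movers between the key states `k` and `k + 1`, in this order. -/
structure Movers (B : Block) (K : ℕ) where
  ns_eq : B.ns = K + 1
  c : ℕ → Wire B.W B.ns
  l : ℕ → Wire B.W B.ns
  core_c : ∀ k, k < K → (c k).IsCore
  core_l : ∀ k, k < K → (l k).IsCore
  r_cc : ∀ j j', j < j' → j' < K → B.r (c j) < B.r (c j')
  r_ll : ∀ j j', j < j' → j' < K → B.r (l j') < B.r (l j)
  r_lc : ∀ j j', j < K → j' < K → B.r (l j) < B.r (c j')
  top_c : ∀ k j, k < K → j < K → j ≠ k →
    B.h (keyN B (k + 1) 0) (c j) < B.h (keyN B (k + 1) 0) (c k)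
  top_l : ∀ k j, k < K → j < K →
    B.h (keyN B (k + 1) 0) (l j) < B.h (keyN B (k + 1) 0) (c k)
  bot_l : ∀ k j, k < K → j < K → j ≠ k →
    B.h (keyN B (k + 1) 0) (l k) < B.h (keyN B (k + 1) 0) (l j)
  bot_c : ∀ k j, k < K → j < K →
    B.h (keyN B (k + 1) 0) (l k) < B.h (keyN B (k + 1) 0) (c j)
  wait_cl : ∀ k j j', k ≤ j → k ≤ j' → j < K → j' < K →
    B.h (keyN B k 0) (c j) < B.h (keyN B k 0) (l j')
  wait_cc : ∀ k j j', k ≤ j → j < j' → j' < K →
    B.h (keyN B k 0) (c j') < B.h (keyN B k 0) (c j)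
  wait_ll : ∀ k j j', k ≤ j → j < j' → j' < K →
    B.h (keyN B k 0) (l j) < B.h (keyN B k 0) (l j')

/-- real key time number `n` -/
noncomputable def tauN {B : Block} {d : ℕ} (R : BReal B d) (n : ℕ) : ℝ :=
  if h : n < B.ns then R.tau ⟨n, h⟩ else 0

theorem tauN_lt {B : Block} {d : ℕ} (R : BReal B d) {a b : ℕ} (hab : a < b) (hb : b < B.ns) :
    tauN R a < tauN R b := by
  unfold tauN
  rw [dif_pos (hab.trans hb), dif_pos hb]
  exact R.tau_lt_tau hab

theorem tauN_core {B : Block} {d : ℕ} (R : BReal B d) {p q : Wire B.W B.ns} (hp : p.IsCore)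
    (hq : q.IsCore) {n : ℕ} (hn : n < B.ns)
    (h : B.h (keyN B n 0) p < B.h (keyN B n 0) q) :
    (R.F p).eval (tauN R n) < (R.F q).eval (tauN R n) := by
  unfold tauN
  unfold keyN at h
  rw [dif_pos hn] at h ⊢
  rwa [R.tau_core hp hq]

theorem once_of_r {B : Block} {d : ℕ} (R : BReal B d) {p q : Wire B.W B.ns}
    (h : B.r p < B.r q) : Once (R.F p) (R.F q) := by
  have h0 := B.h_ini p q h
  constructor
  · intro x y hxy hy
    rw [← R.lt_b_iff h0] at hy ⊢
    linarith
  · intro x y hxy hx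
    rw [← R.b_lt_iff h0] at hx ⊢
    linarith

/-- **(M)** all gaps of `tau 1 < ... < tau (K - 1)` are comparable with the whole -/
theorem log_range {B : Block} {d K : ℕ} (R : BReal B d) (M : Movers B K) (hd : 1 ≤ d)
    {i : ℕ} (hi : 1 ≤ i) (hiK : i + 1 < K) :
    tauN R (K - 1) - tauN R 1 ≤ Real.exp (logM d) * (tauN R (i + 1) - tauN R i) := by
  have hns := M.ns_eq
  refine log_range_sys (K := K) hd (fun j => R.F (M.c j)) (fun j => R.F (M.l j)) (tauN R)
    (fun j _ => R.deg _) (fun j _ => R.deg _)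
    (fun i hi => tauN_lt R (Nat.lt_succ_self i) (by omega))
    (fun j j' h h' => once_of_r R (M.r_ll j j' h h'))
    (fun j j' h h' => once_of_r R (M.r_lc j j' h h'))
    (fun j j' h h' => once_of_r R (M.r_cc j j' h h'))
    ?_ ?_ ?_ ?_ ?_ ?_ ?_ hi hiK
  · intro k j hk hj hjk
    exact tauN_core R (M.core_c j hj) (M.core_c k hk) (by omega) (M.top_c k j hk hj hjk)
  · intro k j hk hj
    exact tauN_core R (M.core_l j hj) (M.core_c k hk) (by omega) (M.top_l k j hk hj)
  · intro k j hk hj hjk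
    exact tauN_core R (M.core_l k hk) (M.core_l j hj) (by omega) (M.bot_l k j hk hj hjk)
  · intro k j hk hj
    exact tauN_core R (M.core_l k hk) (M.core_c j hj) (by omega) (M.bot_c k j hk hj)
  · intro k j j' hj hj' hjK hjK'
    exact tauN_core R (M.core_c j hjK) (M.core_l j' hjK') (by omega)
      (M.wait_cl k j j' hj hj' hjK hjK')
  · intro k j j' hj hjj hjK'
    exact tauN_core R (M.core_c j' hjK') (M.core_c j (by omega)) (by omega)
      (M.wait_cc k j j' hj hjj hjK')
  · intro k j j' hj hjj hjK'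
    exact tauN_core R (M.core_l j (by omega)) (M.core_l j' hjK') (by omega)
      (M.wait_ll k j j' hj hjj hjK')

/-- the crossing of a pair of core wires with opposite orders at two key states -/
theorem crossing_mem {B : Block} {d : ℕ} (R : BReal B d) {p q : Wire B.W B.ns} (hp : p.IsCore)
    (hq : q.IsCore) {n m : ℕ} (hnm : n < m) (hm : m < B.ns)
    (h : B.h (keyN B n 0) q < B.h (keyN B n 0) p)
    (h' : B.h (keyN B m 0) p < B.h (keyN B m 0) q) :
    tauN R n < R.b p q ∧ R.b p q < tauN R m := by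
  have h1 := R.crossing_between (tauN_lt R hnm hm) (tauN_core R hq hp (by omega) h)
    (tauN_core R hp hq hm h')
  exact h1.2

end Pool.Agent.W_be22fd_h13
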