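import Pool.Agent.W_be22fd_h78.Stmts

/-!
MP_be22fd_co, module T: the tent test function (`T_tent`) from the Poisson transform of `lg`.
-/

namespace Pool.Agent.W_be22fd_h13

open MeasureTheory Pool.Agent.W_be22fd_h78

theorem pk_nonneg {h : ℝ} (hh : 0 < h) (s : ℝ) : 0 ≤ pk h s := by
  unfold pk; positivity

theorem integrable_pk_mul {h : ℝ} (hh : 0 < h) (x : ℝ) {f : ℝ → ℝ} (hf : Adm f) :
    Integrable (fun t => pk h (x - t) * f t) := by
  have e : (fun t => pk h (x - t) * f t) =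
      fun t => (pk h (x - t) * (1 + t ^ 2)) * (f t / (1 + t ^ 2)) := by
    funext t
    have : (1 + t ^ 2) ≠ 0 := by positivity
    field_simp
  rw [e]
  refine Integrable.bdd_mul (c := (2 + (1 + 2 * x ^ 2) / h ^ 2) * h) hf ?_ ?_
  · refine Continuous.aestronglyMeasurable ?_
    unfold pk
    refine Continuous.mul (Continuous.div (by fun_prop) (by fun_prop) ?_) (by fun_prop)
    intro t
    have := Real.pi_pos
    positivity
  · refine Filter.Eventually.of_forall fun t => ?_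
    have hpi := Real.pi_gt_three
    rw [Real.norm_eq_abs, abs_of_nonneg (mul_nonneg (pk_nonneg hh _) (by positivity))]
    unfold pk
    rw [div_mul_eq_mul_div, div_le_iff₀ (by positivity)]
    have h1 : 1 + t ^ 2 ≤ (2 + (1 + 2 * x ^ 2) / h ^ 2) * ((x - t) ^ 2 + h ^ 2) := by
      have h2 : (2 + (1 + 2 * x ^ 2) / h ^ 2) * ((x - t) ^ 2 + h ^ 2) =
          2 * (x - t) ^ 2 + 2 * h ^ 2 + (1 + 2 * x ^ 2) / h ^ 2 * (x - t) ^ 2 +
            (1 + 2 * x ^ 2) := by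
        field_simp
        ring
      rw [h2]
      have h3 : 0 ≤ (1 + 2 * x ^ 2) / h ^ 2 * (x - t) ^ 2 := by positivity
      nlinarith [sq_nonneg (2 * x - t), sq_nonneg h]
    have h4 : 0 ≤ (2 + (1 + 2 * x ^ 2) / h ^ 2) * ((x - t) ^ 2 + h ^ 2) := by positivity
    calc h * (1 + t ^ 2) ≤ h * ((2 + (1 + 2 * x ^ 2) / h ^ 2) * ((x - t) ^ 2 + h ^ 2)) := by
          gcongr
      _ ≤ h * ((2 + (1 + 2 * x ^ 2) / h ^ 2) * ((x - t) ^ 2 + h ^ 2)) * Real.pi := by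
          nlinarith [mul_nonneg hh.le h4]
      _ = _ := by ring

theorem adm_const (c : ℝ) : Adm (fun _ => c) := by
  unfold Adm
  have h := (integrable_inv_one_add_sq).const_mul c
  refine h.congr (Filter.Eventually.of_forall fun t => ?_)
  simp [div_eq_mul_inv]

theorem adm_add {f g : ℝ → ℝ} (hf : Adm f) (hg : Adm g) : Adm (fun t => f t + g t) := by
  unfold Adm at *
  refine (Integrable.add hf hg).congr (Filter.Eventually.of_forall fun t => ?_)
  simp [add_div]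

theorem adm_cm {f : ℝ → ℝ} (c : ℝ) (hf : Adm f) : Adm (fun t => c * f t) := by
  unfold Adm at *
  refine (Integrable.const_mul hf c).congr (Filter.Eventually.of_forall fun t => ?_)
  simp [mul_div_assoc]

theorem PP_add {h : ℝ} (hh : 0 < h) {f g : ℝ → ℝ} (hf : Adm f) (hg : Adm g) (x : ℝ) :
    PP h (fun t => f t + g t) x = PP h f x + PP h g x := by
  unfold PP
  rw [← integral_add (integrable_pk_mul hh x hf) (integrable_pk_mul hh x hg)]
  congr 1
  funext t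
  ring

theorem PP_const_mul {h : ℝ} (c : ℝ) (f : ℝ → ℝ) (x : ℝ) :
    PP h (fun t => c * f t) x = c * PP h f x := by
  unfold PP
  rw [← integral_const_mul]
  congr 1
  funext t
  ring

theorem integral_pk {h : ℝ} (hh : 0 < h) (x : ℝ) : ∫ t, pk h (x - t) = 1 := by
  have e : ∀ t : ℝ, pk h (x - t) = (1 / (Real.pi * h)) * (1 + ((t - x) / h) ^ 2)⁻¹ := by
    intro t
    unfold pk
    have hpi := Real.pi_pos
    have h2 : (x - t) ^ 2 + h ^ 2 ≠ 0 := by positivity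
    have h3 : 1 + ((t - x) / h) ^ 2 ≠ 0 := by positivity
    field_simp
    ring_nf
  simp_rw [e]
  rw [integral_const_mul]
  have h1 : ∫ t, (1 + ((t - x) / h) ^ 2)⁻¹ = h * Real.pi := by
    have h2 := integral_sub_right_eq_self (μ := volume) (fun t : ℝ => (1 + (t / h) ^ 2)⁻¹) x
    rw [h2]
    have h3 := Measure.integral_comp_div (fun t : ℝ => (1 + t ^ 2)⁻¹) h
    rw [h3, integral_univ_inv_one_add_sq]
    simp [abs_of_pos hh]
  rw [h1]
  have hpi := Real.pi_pos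
  field_simp

theorem PP_const {h : ℝ} (hh : 0 < h) (c x : ℝ) : PP h (fun _ => c) x = c := by
  unfold PP
  rw [integral_mul_const, integral_pk hh, one_mul]

theorem PP_mono {h : ℝ} (hh : 0 < h) {f g : ℝ → ℝ} (hf : Adm f) (hg : Adm g)
    (hfg : ∀ t, f t ≤ g t) (x : ℝ) : PP h f x ≤ PP h g x := by
  unfold PP
  exact integral_mono (integrable_pk_mul hh x hf) (integrable_pk_mul hh x hg)
    fun t => mul_le_mul_of_nonneg_left (hfg t) (pk_nonneg hh _)

theorem PP_nonneg {h : ℝ} (hh : 0 < h) {f : ℝ → ℝ} (hf : ∀ t, 0 ≤ f t) (x : ℝ) :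
    0 ≤ PP h f x := by
  unfold PP
  exact integral_nonneg fun t => mul_nonneg (pk_nonneg hh _) (hf t)


/-! ### Comparison of two logarithms -/

theorem lg_sub_le {c R x y t K : ℝ} (hR : 0 < R) (hy : 0 < y) (hK : 0 < K)
    (h : (t - c) ^ 2 + R ^ 2 ≤ K ^ 2 * ((t - x) ^ 2 + y ^ 2)) :
    lg c R t - lg x y t ≤ Real.log K := by
  unfold lg
  have h1 : Real.log ((t - c) ^ 2 + R ^ 2) ≤ Real.log (K ^ 2 * ((t - x) ^ 2 + y ^ 2)) :=
    Real.log_le_log (by positivity) h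
  rw [Real.log_mul (by positivity) (by positivity), Real.log_pow] at h1
  push_cast at h1
  linarith

theorem le_lg_sub {c R x y t K : ℝ} (hy : 0 < y) (hK : 0 < K)
    (h : K ^ 2 * ((t - x) ^ 2 + y ^ 2) ≤ (t - c) ^ 2 + R ^ 2) :
    Real.log K ≤ lg c R t - lg x y t := by
  unfold lg
  have h1 : Real.log (K ^ 2 * ((t - x) ^ 2 + y ^ 2)) ≤ Real.log ((t - c) ^ 2 + R ^ 2) :=
    Real.log_le_log (by positivity) h
  rw [Real.log_mul (by positivity) (by positivity), Real.log_pow] at h1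
  push_cast at h1
  linarith

theorem lg_mono {a b b' t : ℝ} (hb : 0 < b) (hbb : b ≤ b') : lg a b t ≤ lg a b' t := by
  unfold lg
  have : Real.log ((t - a) ^ 2 + b ^ 2) ≤ Real.log ((t - a) ^ 2 + b' ^ 2) :=
    Real.log_le_log (by positivity) (by gcongr)
  linarith

/-- the push of the pole is at most half of the push of the broad logarithm -/
theorem push {c R x y h t : ℝ} (hR : 0 < R) (hy : 0 < y) (hh : 0 < h)
    (key : 2 * (2 * y + h) * ((t - c) ^ 2 + (R + h) ^ 2) ≤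
      (2 * R + h) * ((t - x) ^ 2 + y ^ 2)) :
    2 * (lg x (y + h) t - lg x y t) ≤ lg c (R + h) t - lg c R t := by
  have hA : 0 < (t - c) ^ 2 + R ^ 2 := by positivity
  have hA' : 0 < (t - c) ^ 2 + (R + h) ^ 2 := by positivity
  have hB : 0 < (t - x) ^ 2 + y ^ 2 := by positivity
  have hB' : 0 < (t - x) ^ 2 + (y + h) ^ 2 := by positivity
  have h1 : Real.log ((t - x) ^ 2 + (y + h) ^ 2) - Real.log ((t - x) ^ 2 + y ^ 2) ≤
      h * (2 * y + h) / ((t - x) ^ 2 + y ^ 2) := by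
    rw [← Real.log_div hB'.ne' hB.ne']
    have := Real.log_le_sub_one_of_pos (div_pos hB' hB)
    refine this.trans (le_of_eq ?_)
    field_simp
    ring
  have h2 : h * (2 * R + h) / ((t - c) ^ 2 + (R + h) ^ 2) ≤
      Real.log ((t - c) ^ 2 + (R + h) ^ 2) - Real.log ((t - c) ^ 2 + R ^ 2) := by
    have h3 : Real.log ((t - c) ^ 2 + R ^ 2) - Real.log ((t - c) ^ 2 + (R + h) ^ 2) ≤
        - (h * (2 * R + h) / ((t - c) ^ 2 + (R + h) ^ 2)) := by
      rw [← Real.log_div hA.ne' hA'.ne']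
      have := Real.log_le_sub_one_of_pos (div_pos hA hA')
      refine this.trans (le_of_eq ?_)
      field_simp
      ring
    linarith
  have h4 : 2 * (h * (2 * y + h) / ((t - x) ^ 2 + y ^ 2)) ≤
      h * (2 * R + h) / ((t - c) ^ 2 + (R + h) ^ 2) := by
    rw [← mul_div_assoc, div_le_div_iff₀ hB hA']
    nlinarith [mul_le_mul_of_nonneg_left key hh.le]
  unfold lg
  linarith

/-! ### The tent -/

/-- the tent before taking the positive part -/
noncomputable def tq (c x y r₁ r₂ s₁ s₂ : ℝ) (t : ℝ) : ℝ :=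
  s₁ * (lg c r₁ t - lg x y t) + s₂ * (lg c r₂ t - lg x y t) - (s₁ + s₂)

theorem tq_eq (c x y r₁ r₂ s₁ s₂ : ℝ) : tq c x y r₁ r₂ s₁ s₂ = fun t =>
    (s₁ * lg c r₁ t + (s₂ * lg c r₂ t + (-(s₁ + s₂)) * lg x y t)) + (-(s₁ + s₂)) := by
  funext t
  unfold tq
  ring

theorem adm_tq (hadm : A_log_adm) (c x y r₁ r₂ s₁ s₂ : ℝ) : Adm (tq c x y r₁ r₂ s₁ s₂) := by
  rw [tq_eq]
  exact adm_add (adm_add (adm_cm s₁ (hadm c r₁)) (adm_add (adm_cm s₂ (hadm c r₂))
    (adm_cm (-(s₁ + s₂)) (hadm x y)))) (adm_const _)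

theorem PP_tq (hlog : A_log) (hadm : A_log_adm) {c x y r₁ r₂ s₁ s₂ h : ℝ} (hh : 0 < h)
    (hy : 0 < y) (h₁ : 0 < r₁) (h₂ : 0 < r₂) (t : ℝ) :
    PP h (tq c x y r₁ r₂ s₁ s₂) t = tq c x (y + h) (r₁ + h) (r₂ + h) s₁ s₂ t := by
  rw [tq_eq, PP_add hh (adm_add (adm_cm s₁ (hadm c r₁)) (adm_add (adm_cm s₂ (hadm c r₂))
      (adm_cm (-(s₁ + s₂)) (hadm x y)))) (adm_const _),
    PP_add hh (adm_cm s₁ (hadm c r₁)) (adm_add (adm_cm s₂ (hadm c r₂))
      (adm_cm (-(s₁ + s₂)) (hadm x y))),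
    PP_add hh (adm_cm s₂ (hadm c r₂)) (adm_cm (-(s₁ + s₂)) (hadm x y)),
    PP_const_mul, PP_const_mul, PP_const_mul, PP_const hh, hlog h c r₁ t hh, hlog h c r₂ t hh,
    hlog h x y t hh, abs_of_pos hy, abs_of_pos h₁, abs_of_pos h₂, add_comm h y, add_comm h r₁,
    add_comm h r₂, tq_eq]

theorem lg_meas (a b : ℝ) : Measurable (lg a b) := by
  unfold lg
  exact (Real.measurable_log.comp (by fun_prop)).div_const 2

theorem tq_meas (c x y r₁ r₂ s₁ s₂ : ℝ) : Measurable (tq c x y r₁ r₂ s₁ s₂) := by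
  rw [tq_eq]
  exact (((lg_meas c r₁).const_mul s₁).add (((lg_meas c r₂).const_mul s₂).add
    ((lg_meas x y).const_mul (-(s₁ + s₂))))).add_const _

/-- the positive part of the tent is pushed up wherever the tent is pushed up -/
theorem sub_pos_part (hlog : A_log) (hadm : A_log_adm) {c x y r₁ r₂ s₁ s₂ h : ℝ} (hh : 0 < h)
    (hy : 0 < y) (h₁ : 0 < r₁) (h₂ : 0 < r₂) {M : ℝ}
    (hle : ∀ t, max (tq c x y r₁ r₂ s₁ s₂ t) 0 ≤ M) {t : ℝ}
    (key : tq c x y r₁ r₂ s₁ s₂ t ≤ tq c x (y + h) (r₁ + h) (r₂ + h) s₁ s₂ t) :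
    max (tq c x y r₁ r₂ s₁ s₂ t) 0 ≤
      PP h (fun t => max (tq c x y r₁ r₂ s₁ s₂ t) 0) t := by
  have hp : Adm (fun t => max (tq c x y r₁ r₂ s₁ s₂ t) 0) := by
    unfold Adm
    have h0 : Integrable (fun t => (fun _ => M) t / (1 + t ^ 2)) := adm_const M
    refine Integrable.mono' h0 ?_ (Filter.Eventually.of_forall fun t => ?_)
    · exact (((tq_meas c x y r₁ r₂ s₁ s₂).max measurable_const).div
        (by fun_prop)).aestronglyMeasurable
    · rw [Real.norm_eq_abs, abs_of_nonneg (by positivity)]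
      have := hle t
      gcongr
  refine max_le ?_ (PP_nonneg hh (fun t => le_max_right _ _) t)
  rw [← PP_tq hlog hadm hh hy h₁ h₂] at key
  exact key.trans (PP_mono hh (adm_tq hadm c x y r₁ r₂ s₁ s₂) hp (fun t => le_max_left _ _) t)


theorem geo {s d ρ : ℝ} (hs : s = 1 ∨ s = -1) (hρ : 0 < ρ) :
    (|d| - ρ) ^ 2 ≤ (d - s * ρ) ^ 2 ∧ (d - s * ρ) ^ 2 ≤ (|d| + ρ) ^ 2 := by
  have h1 := sq_abs d
  have h2 := le_abs_self d
  have h3 := neg_abs_le d
  rcases hs with rfl | rfl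
  · constructor <;> nlinarith
  · constructor <;> nlinarith

theorem log_three_le : Real.log 3 ≤ 23 / 20 := by
  have h1 : Real.log 3 = Real.log (3 / 4) + 2 * Real.log 2 := by
    have : (3 : ℝ) = 3 / 4 * 2 ^ 2 := by norm_num
    conv_lhs => rw [this]
    rw [Real.log_mul (by norm_num) (by norm_num), Real.log_pow]
    norm_num
  have h2 := Real.log_le_sub_one_of_pos (show (0 : ℝ) < 3 / 4 by norm_num)
  have h3 := Real.log_two_lt_d9
  linarith

/-- upper bound for the tent away from everything: `(t-c)^2 + R^2 <= (2 a / y)^2 ...` -/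
theorem upper_far {c x y R t a : ℝ} (hR : 0 < R) (hy : 0 < y) (hya : y ≤ a)
    (hRa : R ≤ a) (hc : (t - c) ^ 2 ≤ 2 * (t - x) ^ 2 + 2 * a ^ 2) :
    lg c R t - lg x y t ≤ Real.log (2 * (a / y)) := by
  have ha : 0 < a := hy.trans_le hya
  refine lg_sub_le hR hy (by positivity) ?_
  have h1 : (2 * (a / y)) ^ 2 * ((t - x) ^ 2 + y ^ 2) =
      4 * (a ^ 2 / y ^ 2) * (t - x) ^ 2 + 4 * a ^ 2 := by
    field_simp
    ring
  rw [h1]
  have h2 : 1 ≤ a ^ 2 / y ^ 2 := by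
    rw [one_le_div (by positivity)]
    gcongr
  nlinarith [mul_le_mul_of_nonneg_right h2 (sq_nonneg (t - x)), sq_nonneg (t - x),
    mul_self_le_mul_self hR.le hRa]

/-- the tent away from the annulus is not positive; inner side -/
theorem tq_inner {c s x y r₁ ρ r₂ s₁ s₂ t : ℝ} (hs : s = 1 ∨ s = -1) (hx : x = c + s * ρ)
    (hy : 0 < y) (h₁ : 0 < r₁) (h1 : 301 * r₁ ≤ ρ) (h2 : 301 * ρ ≤ r₂)
    (hs1 : s₁ * Real.log (ρ / r₁) = 1) (hs2 : s₂ * Real.log (r₂ / ρ) = 1) (p1 : 0 < s₁)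
    (p2 : 0 < s₂) (ht : |t - c| ≤ r₁) : tq c x y r₁ r₂ s₁ s₂ t ≤ 0 := by
  have hρ : 0 < ρ := by linarith
  have hr2 : 0 < r₂ := by linarith
  have hg := (geo (d := t - c) hs hρ).1
  have e1 : t - c - s * ρ = t - x := by rw [hx]; ring
  rw [e1] at hg
  have h0 := abs_nonneg (t - c)
  have hsq := sq_abs (t - c)
  have hux : ρ ^ 2 / 2 ≤ (t - x) ^ 2 := by nlinarith
  have a1 : lg c r₁ t - lg x y t ≤ Real.log (2 * (r₁ / ρ)) := by
    refine lg_sub_le h₁ hy (by positivity) ?_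
    have : (2 * (r₁ / ρ)) ^ 2 * ((t - x) ^ 2 + y ^ 2) ≥ (2 * (r₁ / ρ)) ^ 2 * (ρ ^ 2 / 2) := by
      gcongr
      nlinarith
    refine le_trans ?_ this
    have : (2 * (r₁ / ρ)) ^ 2 * (ρ ^ 2 / 2) = 2 * r₁ ^ 2 := by field_simp
    rw [this]
    nlinarith
  have a2 : lg c r₂ t - lg x y t ≤ Real.log (2 * (r₂ / ρ)) := by
    refine lg_sub_le hr2 hy (by positivity) ?_
    have : (2 * (r₂ / ρ)) ^ 2 * ((t - x) ^ 2 + y ^ 2) ≥ (2 * (r₂ / ρ)) ^ 2 * (ρ ^ 2 / 2) := by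
      gcongr
      nlinarith
    refine le_trans ?_ this
    have : (2 * (r₂ / ρ)) ^ 2 * (ρ ^ 2 / 2) = 2 * r₂ ^ 2 := by field_simp
    rw [this]
    nlinarith
  rw [Real.log_mul (by norm_num) (by positivity)] at a1 a2
  have e3 : Real.log (r₁ / ρ) = - Real.log (ρ / r₁) := by
    rw [← Real.log_inv, inv_div]
  rw [e3] at a1
  have l2 := Real.log_two_lt_d9
  have b1 := mul_le_mul_of_nonneg_left a1 p1.le
  have b2 := mul_le_mul_of_nonneg_left a2 p2.le
  unfold tq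
  nlinarith

/-- outer side -/
theorem tq_outer {c s x y r₁ ρ r₂ s₁ s₂ t : ℝ} (hs : s = 1 ∨ s = -1) (hx : x = c + s * ρ)
    (hy : 0 < y) (h₁ : 0 < r₁) (h1 : 301 * r₁ ≤ ρ) (h2 : 301 * ρ ≤ r₂)
    (p1 : 0 < s₁) (p2 : 0 < s₂) (ht : r₂ ≤ |t - c|) : tq c x y r₁ r₂ s₁ s₂ t ≤ 0 := by
  have hρ : 0 < ρ := by linarith
  have hr2 : 0 < r₂ := by linarith
  have hg := (geo (d := t - c) hs hρ).1
  have e1 : t - c - s * ρ = t - x := by rw [hx]; ring
  rw [e1] at hg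
  have hsq := sq_abs (t - c)
  have hux : (t - c) ^ 2 / 2 ≤ (t - x) ^ 2 := by nlinarith
  have a1 : lg c r₁ t - lg x y t ≤ Real.log 2 := by
    refine lg_sub_le h₁ hy (by norm_num) ?_
    nlinarith
  have a2 : lg c r₂ t - lg x y t ≤ Real.log 2 := by
    refine lg_sub_le hr2 hy (by norm_num) ?_
    nlinarith
  have l2 := Real.log_two_lt_d9
  have b1 := mul_le_mul_of_nonneg_left a1 p1.le
  have b2 := mul_le_mul_of_nonneg_left a2 p2.le
  unfold tq
  nlinarith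

/-- lower bound on the rising side -/
theorem tq_rise {c s x y r₁ ρ r₂ s₁ s₂ t : ℝ} (hs : s = 1 ∨ s = -1) (hx : x = c + s * ρ)
    (hy : 0 < y) (hyρ : y ≤ ρ) (h₁ : 0 < r₁) (h1 : 301 * r₁ ≤ ρ) (h2 : 301 * ρ ≤ r₂)
    (hs1 : s₁ * Real.log (ρ / r₁) = 1) (hs2 : s₂ * Real.log (r₂ / ρ) = 1) (p1 : 0 < s₁)
    (p2 : 0 < s₂) (q1 : s₁ ≤ 1 / 300) (q2 : s₂ ≤ 1 / 300) (ht : r₁ ≤ |t - c|)
    (ht2 : |t - c| ≤ ρ) :
    Real.log (|t - c| / r₁) / Real.log (ρ / r₁) - 1 / 50 ≤ tq c x y r₁ r₂ s₁ s₂ t := by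
  have hρ : 0 < ρ := by linarith
  have hr2 : 0 < r₂ := by linarith
  have ha : 0 < |t - c| := by linarith
  have hg := (geo (d := t - c) hs hρ).2
  have e1 : t - c - s * ρ = t - x := by rw [hx]; ring
  rw [e1] at hg
  have hsq := sq_abs (t - c)
  have hux : (t - x) ^ 2 + y ^ 2 ≤ (3 * ρ) ^ 2 := by nlinarith
  have a1 : Real.log (|t - c| / (3 * ρ)) ≤ lg c r₁ t - lg x y t := by
    refine le_lg_sub hy (by positivity) ?_
    have : (|t - c| / (3 * ρ)) ^ 2 * ((t - x) ^ 2 + y ^ 2) ≤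
        (|t - c| / (3 * ρ)) ^ 2 * (3 * ρ) ^ 2 := by gcongr
    refine this.trans ?_
    have : (|t - c| / (3 * ρ)) ^ 2 * (3 * ρ) ^ 2 = |t - c| ^ 2 := by field_simp
    rw [this, hsq]
    nlinarith
  have a2 : Real.log (r₂ / (3 * ρ)) ≤ lg c r₂ t - lg x y t := by
    refine le_lg_sub hy (by positivity) ?_
    have : (r₂ / (3 * ρ)) ^ 2 * ((t - x) ^ 2 + y ^ 2) ≤
        (r₂ / (3 * ρ)) ^ 2 * (3 * ρ) ^ 2 := by gcongr
    refine this.trans ?_
    have : (r₂ / (3 * ρ)) ^ 2 * (3 * ρ) ^ 2 = r₂ ^ 2 := by field_simp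
    rw [this]
    nlinarith [sq_nonneg (t - c)]
  have e2 : Real.log (|t - c| / (3 * ρ)) =
      Real.log (|t - c| / r₁) - Real.log (ρ / r₁) - Real.log 3 := by
    rw [Real.log_div ha.ne' (by positivity), Real.log_mul (by norm_num) hρ.ne',
      Real.log_div ha.ne' h₁.ne', Real.log_div hρ.ne' h₁.ne']
    ring
  have e3 : Real.log (r₂ / (3 * ρ)) = Real.log (r₂ / ρ) - Real.log 3 := by
    rw [Real.log_div hr2.ne' (by positivity), Real.log_mul (by norm_num) hρ.ne',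
      Real.log_div hr2.ne' hρ.ne']
    ring
  rw [e2] at a1
  rw [e3] at a2
  have l3 := log_three_le
  have l30 : 0 ≤ Real.log 3 := Real.log_nonneg (by norm_num)
  have hL : Real.log (ρ / r₁) ≠ 0 := by
    intro h
    rw [h] at hs1
    simp at hs1
  have e4 : Real.log (|t - c| / r₁) / Real.log (ρ / r₁) = s₁ * Real.log (|t - c| / r₁) := by
    rw [div_eq_iff hL]
    rw [mul_assoc, mul_comm (Real.log (|t - c| / r₁)), ← mul_assoc, hs1, one_mul]
  rw [e4]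
  have b1 := mul_le_mul_of_nonneg_left a1 p1.le
  have b2 := mul_le_mul_of_nonneg_left a2 p2.le
  unfold tq
  nlinarith [mul_le_mul_of_nonneg_left l3 p1.le, mul_le_mul_of_nonneg_left l3 p2.le]

/-- lower bound on the falling side -/
theorem tq_fall {c s x y r₁ ρ r₂ s₁ s₂ t : ℝ} (hs : s = 1 ∨ s = -1) (hx : x = c + s * ρ)
    (hy : 0 < y) (hyρ : y ≤ ρ) (h₁ : 0 < r₁) (h1 : 301 * r₁ ≤ ρ) (h2 : 301 * ρ ≤ r₂)
    (hs2 : s₂ * Real.log (r₂ / ρ) = 1) (p1 : 0 < s₁)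
    (p2 : 0 < s₂) (q1 : s₁ ≤ 1 / 300) (q2 : s₂ ≤ 1 / 300) (ht : ρ ≤ |t - c|) :
    Real.log (r₂ / |t - c|) / Real.log (r₂ / ρ) - 1 / 50 ≤ tq c x y r₁ r₂ s₁ s₂ t := by
  have hρ : 0 < ρ := by linarith
  have hr2 : 0 < r₂ := by linarith
  have ha : 0 < |t - c| := by linarith
  have hg := (geo (d := t - c) hs hρ).2
  have e1 : t - c - s * ρ = t - x := by rw [hx]; ring
  rw [e1] at hg
  have hsq := sq_abs (t - c)
  have hux : (t - x) ^ 2 + y ^ 2 ≤ (3 * |t - c|) ^ 2 := by nlinarith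
  have a1 : Real.log (1 / 3) ≤ lg c r₁ t - lg x y t := by
    refine le_lg_sub hy (by norm_num) ?_
    nlinarith
  have a2 : Real.log (r₂ / (3 * |t - c|)) ≤ lg c r₂ t - lg x y t := by
    refine le_lg_sub hy (by positivity) ?_
    have : (r₂ / (3 * |t - c|)) ^ 2 * ((t - x) ^ 2 + y ^ 2) ≤
        (r₂ / (3 * |t - c|)) ^ 2 * (3 * |t - c|) ^ 2 := by gcongr
    refine this.trans ?_
    have : (r₂ / (3 * |t - c|)) ^ 2 * (3 * |t - c|) ^ 2 = r₂ ^ 2 := by field_simp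
    rw [this]
    nlinarith [sq_nonneg (t - c)]
  have e2 : Real.log (1 / 3) = - Real.log 3 := by
    rw [one_div, Real.log_inv]
  have e3 : Real.log (r₂ / (3 * |t - c|)) = Real.log (r₂ / |t - c|) - Real.log 3 := by
    rw [Real.log_div hr2.ne' (by positivity), Real.log_mul (by norm_num) ha.ne',
      Real.log_div hr2.ne' ha.ne']
    ring
  rw [e2] at a1
  rw [e3] at a2
  have l3 := log_three_le
  have l30 : 0 ≤ Real.log 3 := Real.log_nonneg (by norm_num)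
  have hL : Real.log (r₂ / ρ) ≠ 0 := by
    intro h
    rw [h] at hs2
    simp at hs2
  have e4 : Real.log (r₂ / |t - c|) / Real.log (r₂ / ρ) = s₂ * Real.log (r₂ / |t - c|) := by
    rw [div_eq_iff hL]
    rw [mul_assoc, mul_comm (Real.log (r₂ / |t - c|)), ← mul_assoc, hs2, one_mul]
  rw [e4]
  have b1 := mul_le_mul_of_nonneg_left a1 p1.le
  have b2 := mul_le_mul_of_nonneg_left a2 p2.le
  unfold tq
  nlinarith [mul_le_mul_of_nonneg_left l3 p1.le, mul_le_mul_of_nonneg_left l3 p2.le]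


/-- upper bound of the tent everywhere, sharper width at the inner radius -/
theorem tq_le {c s x y r₁ ρ r₂ s₁ s₂ L₁ L₂ t : ℝ} (hs : s = 1 ∨ s = -1) (hx : x = c + s * ρ)
    (hy : 0 < y) (h₁ : 0 < r₁) (h1 : 301 * r₁ ≤ ρ) (h2 : 301 * ρ ≤ r₂) (hyρ : y ≤ ρ)
    (hL2 : L₂ = Real.log (r₂ / ρ))
    (hs1 : s₁ * L₁ = 1) (hs2 : s₂ * L₂ = 1) (p1 : 0 < s₁) (p2 : 0 < s₂)
    (q1 : s₁ ≤ 1 / 300) (q2 : s₂ ≤ 1 / 300)
    (hyL : Real.log (ρ / y) ≤ min L₁ L₂ + 7) : tq c x y r₁ r₂ s₁ s₂ t ≤ 8 := by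
  have hρ : 0 < ρ := by linarith
  have hr2 : 0 < r₂ := by linarith
  have hc : (t - c) ^ 2 ≤ 2 * (t - x) ^ 2 + 2 * ρ ^ 2 := by
    rw [hx]
    rcases hs with rfl | rfl
    · nlinarith [sq_nonneg (t - c - 2 * ρ)]
    · nlinarith [sq_nonneg (t - c + 2 * ρ)]
  have hc2 : (t - c) ^ 2 ≤ 2 * (t - x) ^ 2 + 2 * r₂ ^ 2 := by nlinarith
  have a1 := upper_far (R := r₁) h₁ hy hyρ (by linarith) hc
  have a2 := upper_far (R := r₂) hr2 hy (by linarith) le_rfl hc2
  rw [Real.log_mul (by norm_num) (by positivity)] at a1 a2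
  have e2 : Real.log (r₂ / y) = L₂ + Real.log (ρ / y) := by
    rw [hL2, ← Real.log_mul (by positivity) (by positivity)]
    congr 1
    field_simp
  rw [e2] at a2
  have l2 := Real.log_two_lt_d9
  have m1 := min_le_left L₁ L₂
  have m2 := min_le_right L₁ L₂
  have b1 := mul_le_mul_of_nonneg_left a1 p1.le
  have b2 := mul_le_mul_of_nonneg_left a2 p2.le
  have c1 := mul_le_mul_of_nonneg_left (hyL.trans (by linarith : min L₁ L₂ + 7 ≤ L₁ + 7)) p1.le
  have c2 := mul_le_mul_of_nonneg_left (hyL.trans (by linarith : min L₁ L₂ + 7 ≤ L₂ + 7)) p2.le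
  unfold tq
  nlinarith

/-- the pushing inequality with the inner logarithm -/
theorem key_inner {c s x y r₁ ρ h t : ℝ} (hs : s = 1 ∨ s = -1) (hx : x = c + s * ρ)
    (h₁ : 0 < r₁) (h1 : 301 * r₁ ≤ ρ) (hy : y = r₁ / 200) (hh : 0 < h) (hhy : h ≤ y)
    (ht : ρ ^ 2 / 16 ≤ (t - x) ^ 2) :
    2 * (2 * y + h) * ((t - c) ^ 2 + (r₁ + h) ^ 2) ≤
      (2 * r₁ + h) * ((t - x) ^ 2 + y ^ 2) := by
  have hρ : 0 < ρ := by linarith
  have hc : (t - c) ^ 2 ≤ 25 * (t - x) ^ 2 := by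
    have : (t - c) ^ 2 ≤ 5 * (t - x) ^ 2 + 5 / 4 * ρ ^ 2 := by
      rw [hx]
      rcases hs with rfl | rfl
      · nlinarith [sq_nonneg (4 * (t - (c + 1 * ρ)) - ρ)]
      · nlinarith [sq_nonneg (4 * (t - (c + -1 * ρ)) + ρ)]
    linarith
  have hr : (r₁ + h) ^ 2 ≤ (t - x) ^ 2 := by
    have : (r₁ + h) ^ 2 ≤ (ρ / 4) ^ 2 := by
      apply pow_le_pow_left₀ (by positivity)
      linarith
    nlinarith
  have hA : (t - c) ^ 2 + (r₁ + h) ^ 2 ≤ 26 * (t - x) ^ 2 := by linarith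
  have hB : 2 * (2 * y + h) ≤ 6 * (r₁ / 200) := by linarith
  calc 2 * (2 * y + h) * ((t - c) ^ 2 + (r₁ + h) ^ 2) ≤
      6 * (r₁ / 200) * (26 * (t - x) ^ 2) := by
        apply mul_le_mul hB hA (by positivity) (by positivity)
    _ ≤ 2 * r₁ * (t - x) ^ 2 := by nlinarith [mul_nonneg h₁.le (sq_nonneg (t - x))]
    _ ≤ (2 * r₁ + h) * ((t - x) ^ 2 + y ^ 2) := by
        apply mul_le_mul (by linarith) (by nlinarith [sq_nonneg y]) (by positivity)
          (by positivity)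

/-- the pushing inequality with the outer logarithm -/
theorem key_outer {c s x y ρ r₂ h t : ℝ} (hs : s = 1 ∨ s = -1) (hx : x = c + s * ρ)
    (hρ : 0 < ρ) (h2 : 301 * ρ ≤ r₂) (hy : y = ρ ^ 2 / (200 * r₂)) (hh : 0 < h) (hhy : h ≤ y)
    (ht : ρ ^ 2 / 16 ≤ (t - x) ^ 2) :
    2 * (2 * y + h) * ((t - c) ^ 2 + (r₂ + h) ^ 2) ≤
      (2 * r₂ + h) * ((t - x) ^ 2 + y ^ 2) := by
  have hr2 : 0 < r₂ := by linarith
  have hy0 : 0 < y := hh.trans_le hhy
  have hyr : y * (200 * r₂) = ρ ^ 2 := by rw [hy]; field_simp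
  have hyρ : y ≤ ρ / 60200 := by
    rw [hy, div_le_div_iff₀ (by positivity) (by norm_num)]
    nlinarith
  have hc : (t - c) ^ 2 ≤ 25 * (t - x) ^ 2 := by
    have : (t - c) ^ 2 ≤ 5 * (t - x) ^ 2 + 5 / 4 * ρ ^ 2 := by
      rw [hx]
      rcases hs with rfl | rfl
      · nlinarith [sq_nonneg (4 * (t - (c + 1 * ρ)) - ρ)]
      · nlinarith [sq_nonneg (4 * (t - (c + -1 * ρ)) + ρ)]
    linarith
  have hr : (r₂ + h) ^ 2 ≤ 2 * r₂ ^ 2 := by
    have : (r₂ + h) ^ 2 ≤ (11 / 10 * r₂) ^ 2 := by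
      apply pow_le_pow_left₀ (by positivity)
      linarith
    nlinarith
  have hB : 2 * (2 * y + h) ≤ 6 * y := by linarith
  calc 2 * (2 * y + h) * ((t - c) ^ 2 + (r₂ + h) ^ 2) ≤
      6 * y * (25 * (t - x) ^ 2 + 2 * r₂ ^ 2) := by
        apply mul_le_mul hB (by linarith) (by positivity) (by positivity)
    _ ≤ 2 * r₂ * (t - x) ^ 2 := by
        have e1 : 6 * y * (2 * r₂ ^ 2) = 6 / 100 * r₂ * (y * (200 * r₂)) := by ring
        have e2 : 6 / 100 * r₂ * (y * (200 * r₂)) ≤ r₂ * (t - x) ^ 2 := by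
          rw [hyr]
          nlinarith
        have e3 : 6 * y * (25 * (t - x) ^ 2) ≤ r₂ * (t - x) ^ 2 := by
          nlinarith [mul_nonneg (show 0 ≤ r₂ - 150 * y by linarith) (sq_nonneg (t - x))]
        nlinarith
    _ ≤ (2 * r₂ + h) * ((t - x) ^ 2 + y ^ 2) := by
        apply mul_le_mul (by linarith) (by nlinarith [sq_nonneg y]) (by positivity)
          (by positivity)


theorem t_tent (hlog : A_log) (hadm : A_log_adm) : T_tent := by
  refine ⟨300, by norm_num, ?_⟩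
  intro c s r₁ ρ r₂ hs h₁ hE1 hE2
  have hexp : (301 : ℝ) ≤ Real.exp 300 := by
    have := Real.add_one_le_exp (300 : ℝ)
    linarith
  have hρ : 0 < ρ := lt_of_lt_of_le (by positivity) hE1
  have hr2 : 0 < r₂ := lt_of_lt_of_le (by positivity) hE2
  have h1 : 301 * r₁ ≤ ρ := le_trans (by gcongr) hE1
  have h2 : 301 * ρ ≤ r₂ := le_trans (by gcongr) hE2
  set L₁ := Real.log (ρ / r₁) with hL1
  set L₂ := Real.log (r₂ / ρ) with hL2
  have l1 : 300 ≤ L₁ := by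
    rw [hL1, Real.le_log_iff_exp_le (by positivity), le_div_iff₀ h₁]
    exact hE1
  have l2 : 300 ≤ L₂ := by
    rw [hL2, Real.le_log_iff_exp_le (by positivity), le_div_iff₀ hρ]
    exact hE2
  have p1 : 0 < 1 / L₁ := by positivity
  have p2 : 0 < 1 / L₂ := by positivity
  have q1 : 1 / L₁ ≤ 1 / 300 := one_div_le_one_div_of_le (by norm_num) l1
  have q2 : 1 / L₂ ≤ 1 / 300 := one_div_le_one_div_of_le (by norm_num) l2
  have hs1 : 1 / L₁ * L₁ = 1 := by field_simp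
  have hs2 : 1 / L₂ * L₂ = 1 := by field_simp
  have l200 : Real.log 200 ≤ 7 := by
    rw [Real.log_le_iff_le_exp (by norm_num)]
    have e1 : Real.exp 7 = Real.exp 1 ^ 7 := by
      rw [← Real.exp_nat_mul]
      norm_num
    have e2 : (2.7 : ℝ) ^ 7 ≤ Real.exp 1 ^ 7 :=
      pow_le_pow_left₀ (by norm_num) (by linarith [Real.exp_one_gt_d9]) 7
    rw [e1]
    refine le_trans ?_ e2
    norm_num
  -- the height of the pole
  obtain ⟨y, hy, hyρ, hyL, hpush⟩ : ∃ y : ℝ, 0 < y ∧ y ≤ ρ ∧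
      Real.log (ρ / y) ≤ min L₁ L₂ + 7 ∧
      ∀ h, 0 < h → h ≤ y → ∀ t, ρ ^ 2 / 16 ≤ (t - (c + s * ρ)) ^ 2 →
        tq c (c + s * ρ) y r₁ r₂ (1 / L₁) (1 / L₂) t ≤
          tq c (c + s * ρ) (y + h) (r₁ + h) (r₂ + h) (1 / L₁) (1 / L₂) t := by
    rcases le_total L₁ L₂ with hl | hl
    · refine ⟨r₁ / 200, by positivity, by linarith, ?_, ?_⟩
      · rw [min_eq_left hl]
        have : Real.log (ρ / (r₁ / 200)) = L₁ + Real.log 200 := by
          rw [hL1, ← Real.log_mul (by positivity) (by norm_num)]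
          congr 1
          field_simp
        rw [this]
        linarith
      · intro h hh hhy t ht
        have k := push h₁ (by positivity) hh
          (key_inner hs rfl h₁ h1 rfl hh hhy ht)
        have k2 := lg_mono (a := c) (t := t) hr2 (by linarith : r₂ ≤ r₂ + h)
        have k3 := lg_mono (a := c + s * ρ) (t := t) (b := r₁ / 200) (by positivity)
          (by linarith : r₁ / 200 ≤ r₁ / 200 + h)
        have hls : 1 / L₂ ≤ 1 / L₁ := one_div_le_one_div_of_le (by linarith) hl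
        unfold tq
        nlinarith [mul_le_mul_of_nonneg_left k p1.le, mul_le_mul_of_nonneg_left k2 p2.le,
          mul_nonneg (sub_nonneg.2 hls) (sub_nonneg.2 k3)]
    · have hyr : ρ ^ 2 / (200 * r₂) * (200 * r₂) = ρ ^ 2 := by field_simp
      refine ⟨ρ ^ 2 / (200 * r₂), by positivity, ?_, ?_, ?_⟩
      · rw [div_le_iff₀ (by positivity)]
        nlinarith
      · rw [min_eq_right hl]
        have : Real.log (ρ / (ρ ^ 2 / (200 * r₂))) = L₂ + Real.log 200 := by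
          rw [hL2, ← Real.log_mul (by positivity) (by norm_num)]
          congr 1
          field_simp
        rw [this]
        linarith
      · intro h hh hhy t ht
        have k := push hr2 (by positivity) hh
          (key_outer hs rfl hρ h2 rfl hh hhy ht)
        have k2 := lg_mono (a := c) (t := t) h₁ (by linarith : r₁ ≤ r₁ + h)
        have k3 := lg_mono (a := c + s * ρ) (t := t) (b := ρ ^ 2 / (200 * r₂)) (by positivity)
          (by linarith : ρ ^ 2 / (200 * r₂) ≤ ρ ^ 2 / (200 * r₂) + h)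
        have hls : 1 / L₁ ≤ 1 / L₂ := one_div_le_one_div_of_le (by linarith) hl
        unfold tq
        nlinarith [mul_le_mul_of_nonneg_left k p2.le, mul_le_mul_of_nonneg_left k2 p1.le,
          mul_nonneg (sub_nonneg.2 hls) (sub_nonneg.2 k3)]
  have hle : ∀ t, max (tq c (c + s * ρ) y r₁ r₂ (1 / L₁) (1 / L₂) t) 0 ≤ 8 := fun t =>
    max_le (tq_le hs rfl hy h₁ h1 h2 hyρ hL2 hs1 hs2 p1 p2 q1 q2 hyL) (by norm_num)
  have hin : ∀ t, |t - c| ≤ r₁ → max (tq c (c + s * ρ) y r₁ r₂ (1 / L₁) (1 / L₂) t) 0 = 0 :=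
    fun t ht => max_eq_right (tq_inner hs rfl hy h₁ h1 h2 hs1 hs2 p1 p2 ht)
  have hout : ∀ t, r₂ ≤ |t - c| → max (tq c (c + s * ρ) y r₁ r₂ (1 / L₁) (1 / L₂) t) 0 = 0 :=
    fun t ht => max_eq_right (tq_outer hs rfl hy h₁ h1 h2 p1 p2 ht)
  refine ⟨y, hy, fun t => max (tq c (c + s * ρ) y r₁ r₂ (1 / L₁) (1 / L₂) t) 0, ?_, hin, hout,
    ?_, ?_⟩
  · intro h hh hhy
    refine ⟨(tq_meas c (c + s * ρ) y r₁ r₂ (1 / L₁) (1 / L₂)).max measurable_const,
      fun t => le_max_right _ _, hle, ⟨|c| + r₂, fun t ht => hout t ?_⟩, ?_⟩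
    · have := abs_sub_abs_le_abs_sub t c
      linarith
    · intro t ht
      refine sub_pos_part hlog hadm hh hy h₁ hr2 hle (hpush h hh hhy t ?_)
      rw [Set.mem_Icc, not_and_or, not_le, not_le] at ht
      rcases ht with ht | ht
      · nlinarith
      · nlinarith
  · intro t ht ht2
    exact (tq_rise hs rfl hy hyρ h₁ h1 h2 hs1 hs2 p1 p2 q1 q2 ht ht2).trans (le_max_left _ _)
  · intro t ht ht2
    exact (tq_fall hs rfl hy hyρ h₁ h1 h2 hs2 p1 p2 q1 q2 ht).trans (le_max_left _ _)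

end Pool.Agent.W_be22fd_h13
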